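import Pool.Agent.Y47.BU.OCnt

/-! The number of edges spanned by the vertices of a homogeneous blow-up, by class sizes. -/

set_option autoImplicit false
set_option maxRecDepth 100000
open Finset
open scoped Classical

namespace Pool.Agent.Q54.Tur
open Pool.Agent.H122R2.N6 Pool.Agent.H37R3.Pen Pool.Agent.H37R3.Cop
open Pool.Agent.TH773.CL (tx)
open Pool.Agent.TH773.CM (s3 s3_213 s3_132 s3_sorted u3 CpK cpS mem_cpS)
open Pool.Agent.Y47.BU

def cn (l : List (Fin 6)) (i : Fin 6) : ℤ := (l.count i : ℤ)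

theorem cn_cons (b : Fin 6) (l : List (Fin 6)) (i : Fin 6) :
    cn (b :: l) i = cn l i + if i = b then 1 else 0 := by
  unfold cn
  rw [List.count_cons]
  by_cases h : i = b
  · subst h; simp
  · have h' : ¬ b = i := fun e => h e.symm
    simp [h, h']

section
variable {W : Fin 6 → Fin 6 → Fin 6 → ℕ}

theorem sg_cn (a b : Fin 6) (l : List (Fin 6)) :
    (sg W a b l : ℤ) = ∑ j, (W a b j : ℤ) * cn l j := by
  induction l with
  | nil => simp [sg, cn]
  | cons c l ih =>
    have e : sg W a b (c :: l) = W a b c + sg W a b l := by simp [sg]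
    rw [e]
    push_cast
    rw [ih]
    simp only [cn_cons, mul_add, Finset.sum_add_distrib, mul_ite, mul_one, mul_zero,
      Finset.sum_ite_eq', Finset.mem_univ, if_true]
    ring

theorem pr_cn (h1 : ∀ i j k, W i j k = W i k j) (a : Fin 6) (l : List (Fin 6)) :
    2 * (pr W a l : ℤ) = ∑ i, ∑ j, (W a i j : ℤ) * (cn l i * cn l j) -
      ∑ i, (W a i i : ℤ) * cn l i := by
  induction l with
  | nil => simp [pr, cn]
  | cons b l ih =>
    have e : pr W a (b :: l) = sg W a b l + pr W a l := rfl
    rw [e]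
    push_cast
    rw [mul_add, ih, sg_cn]
    have e1 : ∀ i, (W a i b : ℤ) = W a b i := fun i => by rw [h1]
    simp only [cn_cons, mul_add, add_mul, Finset.sum_add_distrib, mul_ite, ite_mul, mul_one,
      one_mul, mul_zero, zero_mul, Finset.sum_ite_eq', Finset.sum_ite_irrel, Finset.sum_const_zero,
      Finset.mem_univ, if_true, e1]
    ring

theorem spl_cn (h1 : ∀ i j k, W i j k = W i k j) (h2 : ∀ i j k, W i j k = W j i k)
    (l : List (Fin 6)) :
    6 * (spl W l : ℤ) = ∑ i, ∑ j, ∑ k, (W i j k : ℤ) * (cn l i * (cn l j * cn l k)) -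
      3 * ∑ i, ∑ j, (W i i j : ℤ) * (cn l i * cn l j) + 2 * ∑ i, (W i i i : ℤ) * cn l i := by
  induction l with
  | nil => simp [spl, cn]
  | cons b l ih =>
    have e : spl W (b :: l) = pr W b l + spl W l := rfl
    rw [e]
    have e0 := pr_cn h1 b l
    have e3 : 6 * ((pr W b l + spl W l : ℕ) : ℤ) = 3 * (2 * (pr W b l : ℤ)) + 6 * (spl W l : ℤ) := by
      push_cast; ring
    rw [e3, e0, ih]
    have e1 : ∀ i j, (W i j b : ℤ) = W b i j := fun i j => by rw [h1, h2]
    have e2 : ∀ i j, (W i b j : ℤ) = W b i j := fun i j => by rw [h2]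
    have e4 : ∀ i, (W i i b : ℤ) = W b i i := fun i => e1 i i
    simp only [cn_cons, mul_add, add_mul, Finset.sum_add_distrib, mul_ite, ite_mul, mul_one,
      one_mul, mul_zero, zero_mul, Finset.sum_ite_eq', Finset.sum_ite_irrel, Finset.sum_const_zero,
      Finset.mem_univ, if_true]
    have f1 : (∑ x, ∑ z, (W x b z : ℤ) * (cn l x * cn l z)) =
        ∑ x, ∑ z, (W b x z : ℤ) * (cn l x * cn l z) :=
      sum_congr rfl fun x _ => sum_congr rfl fun z _ => by rw [e2]
    have f2 : (∑ x, ∑ z, (W x z b : ℤ) * (cn l x * cn l z)) =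
        ∑ x, ∑ z, (W b x z : ℤ) * (cn l x * cn l z) :=
      sum_congr rfl fun x _ => sum_congr rfl fun z _ => by rw [e1]
    have f3 : (∑ x, (W b x b : ℤ) * cn l x) = ∑ x, (W b b x : ℤ) * cn l x :=
      sum_congr rfl fun x _ => by rw [h1]
    have f4 : (∑ x, (W x b b : ℤ) * cn l x) = ∑ x, (W b b x : ℤ) * cn l x :=
      sum_congr rfl fun x _ => by rw [h2, h1]
    have f5 : (∑ x, (W x x b : ℤ) * cn l x) = ∑ x, (W b x x : ℤ) * cn l x :=
      sum_congr rfl fun x _ => by rw [e4]
    rw [f1, f2, f3, f4, f5]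
    ring

end

/-- value of a triple of classes -/
def WV (m : ℕ) (c : ℕ → ℕ → ℕ) (i j k : Fin 6) : ℕ :=
  if i = j then (if j = k then 0 else c i k) else
  if j = k then c j i else if i = k then c i j else u3 m (s3 i j k)

theorem WV_132 (m : ℕ) (c : ℕ → ℕ → ℕ) (i j k : Fin 6) : WV m c i j k = WV m c i k j := by
  unfold WV
  by_cases h1 : i = j
  · subst h1
    by_cases h2 : i = k
    · subst h2; simp
    · have h2' : ¬ k = i := fun e => h2 e.symm
      simp [h2, h2']
  · by_cases h2 : j = k
    · subst h2; simp [h1]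
    · have h2' : ¬ k = j := fun e => h2 e.symm
      by_cases h3 : i = k
      · subst h3; simp [h1, h2]
      · simp only [h1, h2, h2', h3, if_false]
        rw [s3_132]

theorem WV_213 (m : ℕ) (c : ℕ → ℕ → ℕ) (i j k : Fin 6) : WV m c i j k = WV m c j i k := by
  unfold WV
  by_cases h1 : i = j
  · subst h1; simp
  · have h1' : ¬ j = i := fun e => h1 e.symm
    by_cases h2 : j = k
    · subst h2; simp [h1, h1']
    · by_cases h3 : i = k
      · subst h3; simp [h1, h1', h2]
      · simp only [h1, h1', h2, h3, if_false]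
        rw [s3_213]

section
variable {V : Type} {E : V → V → V → ℕ} {m t : ℕ} {c : ℕ → ℕ → ℕ} {y : Fin 6 → Fin t → V}

theorem val_cls (hE : Sy E) (h : Hom E m c t y) (p q r : Fin 6 × Fin t) (h1 : p ≠ q)
    (h2 : p ≠ r) (h3 : q ≠ r) :
    E (y p.1 p.2) (y q.1 q.2) (y r.1 r.2) = WV m c p.1 q.1 r.1 := by
  obtain ⟨i, a⟩ := p
  obtain ⟨j, b⟩ := q
  obtain ⟨k, d⟩ := r
  simp only
  unfold WV
  by_cases e1 : i = j
  · subst e1
    have hab : a ≠ b := fun e => h1 (by rw [e])
    by_cases e2 : i = k
    · subst e2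
      have had : a ≠ d := fun e => h2 (by rw [e])
      have hbd : b ≠ d := fun e => h3 (by rw [e])
      simp only [if_true]
      exact h.ind i a b d hab had hbd
    · simp only [if_true, e2, if_false]
      exact h.par i k e2 a b hab d
  · by_cases e2 : j = k
    · subst e2
      have hbd : b ≠ d := fun e => h3 (by rw [e])
      simp only [e1, if_true, if_false]
      rw [← hE.h231]
      exact h.par j i (fun e => e1 e.symm) b d hbd a
    · by_cases e3 : i = k
      · subst e3
        have had : a ≠ d := fun e => h2 (by rw [e])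
        simp only [e1, e2, if_true, if_false]
        rw [← hE.h132]
        exact h.par i j e1 a d had b
      · simp only [e1, e2, e3, if_false]
        exact h.full hE i j k e1 e3 e2 a b d

theorem sg_cls (hE : Sy E) (h : Hom E m c t y) (p q : Fin 6 × Fin t) (hpq : p ≠ q)
    (L : List (Fin 6 × Fin t)) (hp : p ∉ L) (hq : q ∉ L) :
    sg E (y p.1 p.2) (y q.1 q.2) (L.map fun s => y s.1 s.2) =
      sg (WV m c) p.1 q.1 (L.map Prod.fst) := by
  unfold sg
  rw [List.map_map, List.map_map]
  congr 1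
  refine List.map_congr_left fun r hr => ?_
  exact val_cls hE h p q r hpq (fun e => hp (by rw [e]; exact hr)) (fun e => hq (by rw [e]; exact hr))

theorem pr_cls (hE : Sy E) (h : Hom E m c t y) (p : Fin 6 × Fin t) :
    ∀ (L : List (Fin 6 × Fin t)), L.Nodup → p ∉ L →
    pr E (y p.1 p.2) (L.map fun s => y s.1 s.2) = pr (WV m c) p.1 (L.map Prod.fst)
  | [], _, _ => rfl
  | q :: L, hL, hp => by
    have hL' := List.nodup_cons.mp hL
    have hp' : p ∉ L := fun h => hp (List.mem_cons_of_mem _ h)
    change sg E (y p.1 p.2) (y q.1 q.2) (L.map fun s => y s.1 s.2) +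
      pr E (y p.1 p.2) (L.map fun s => y s.1 s.2) =
      sg (WV m c) p.1 q.1 (L.map Prod.fst) + pr (WV m c) p.1 (L.map Prod.fst)
    rw [sg_cls hE h p q (fun e => hp (by rw [e]; exact List.mem_cons_self)) L hp' hL'.1,
      pr_cls hE h p L hL'.2 hp']

theorem spl_cls (hE : Sy E) (h : Hom E m c t y) :
    ∀ (L : List (Fin 6 × Fin t)), L.Nodup →
    spl E (L.map fun s => y s.1 s.2) = spl (WV m c) (L.map Prod.fst)
  | [], _ => rfl
  | q :: L, hL => by
    have hL' := List.nodup_cons.mp hL
    change pr E (y q.1 q.2) (L.map fun s => y s.1 s.2) + spl E (L.map fun s => y s.1 s.2) =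
      pr (WV m c) q.1 (L.map Prod.fst) + spl (WV m c) (L.map Prod.fst)
    rw [pr_cls hE h q L hL'.2 hL'.1, spl_cls hE h L hL'.2]

/-- the vertices `(i, a)` with `a < x i` -/
theorem realise (hE : Sy E) (h : Hom E m c t y) (x : Fin 6 → ℕ) (hx : ∀ i, x i ≤ t) {k : ℕ}
    (hk : ∑ i, x i = k) :
    ∃ e : Fin k → Fin 6 × Fin t, Function.Injective e ∧
      6 * (spl E (List.ofFn fun i => y (e i).1 (e i).2) : ℤ) =
        ∑ i, ∑ j, ∑ l, (WV m c i j l : ℤ) * ((x i : ℤ) * ((x j : ℤ) * (x l : ℤ))) -
        3 * ∑ i, ∑ j, (WV m c i i j : ℤ) * ((x i : ℤ) * (x j : ℤ)) := by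
  let S : Finset (Fin 6 × Fin t) := univ.filter fun q => q.2.val < x q.1
  have hfib : ∀ i : Fin 6, (S.filter fun q => q.1 = i).card = x i := by
    intro i
    have e1 : (S.filter fun q => q.1 = i) =
        ((univ : Finset (Fin t)).filter fun a => a.val < x i).image fun a => (i, a) := by
      ext q
      simp only [S, mem_filter, mem_univ, true_and, mem_image]
      constructor
      · rintro ⟨h1, rfl⟩
        exact ⟨q.2, h1, rfl⟩
      · rintro ⟨a, h1, rfl⟩
        exact ⟨h1, rfl⟩
    rw [e1, card_image_of_injective _ (fun a b e => (Prod.mk.inj e).2)]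
    rw [Fin.card_filter_val_lt]
    exact min_eq_right (hx i)
  let L := S.toList
  have hLn : L.Nodup := S.nodup_toList
  have hcnt : ∀ i, (L.map Prod.fst).count i = x i := by
    intro i
    rw [List.count_eq_countP, List.countP_map, List.countP_eq_length_filter]
    rw [← hfib i, ← List.toFinset_card_of_nodup (hLn.filter _)]
    congr 1
    ext q
    simp [L]
  have hlen : L.length = k := by
    rw [← hk]
    simp only [L, length_toList]
    rw [card_eq_sum_card_fiberwise (f := Prod.fst) (t := univ) (fun _ _ => mem_coe.mpr (mem_univ _))]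
    exact sum_congr rfl fun i _ => hfib i
  refine ⟨fun i => L.get (i.cast hlen.symm), ?_, ?_⟩
  · intro i j e
    have := List.nodup_iff_injective_get.mp hLn e
    exact Fin.ext (by have := congrArg Fin.val this; simpa using this)
  · rw [ofl L (fun q => y q.1 q.2) hlen, spl_cls hE h L hLn,
      spl_cn (WV_132 m c) (WV_213 m c)]
    have e1 : ∀ i, cn (L.map Prod.fst) i = (x i : ℤ) := by
      intro i
      unfold cn
      rw [hcnt]
    simp only [e1]
    have e2 : ∀ i, WV m c i i i = 0 := by
      intro i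
      simp [WV]
    simp [e2]

end

end Pool.Agent.Q54.Tur
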