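import Pool.Agent.Q54.Tur.Cnt

/-! Which order-size pairs are realised in all large blow-ups. -/

set_option autoImplicit false
set_option maxRecDepth 100000
open Finset
open scoped Classical

namespace Pool.Agent.Q54.Tur
open Pool.Agent.H122R2.N6 Pool.Agent.H37R3.Pen Pool.Agent.H37R3.Cop
open Pool.Agent.TH773.CL (tx)
open Pool.Agent.TH773.CM (s3 s3_213 s3_132 s3_sorted u3 CpK cpS mem_cpS)
open Pool.Agent.Y47.BU

/-- the number of edges of a blow-up of a 3-graph on six vertices with class sizes `x` -/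
def blow (T : List (Fin 6 × Fin 6 × Fin 6)) (x : Fin 6 → ℕ) : ℕ :=
  (T.map fun t => x t.1 * x t.2.1 * x t.2.2).sum

/-- the first pattern, twelve edges -/
def TA : List (Fin 6 × Fin 6 × Fin 6) := [(0, 1, 2), (0, 1, 3), (0, 2, 3), (0, 1, 4), (1, 2, 4),
  (1, 3, 4), (2, 3, 4), (0, 1, 5), (1, 2, 5), (1, 3, 5), (2, 3, 5), (0, 4, 5)]

/-- the second pattern, thirteen edges -/
def TB : List (Fin 6 × Fin 6 × Fin 6) := [(0, 1, 2), (0, 1, 3), (1, 2, 3), (0, 1, 4), (0, 2, 4),
  (0, 3, 4), (2, 3, 4), (0, 2, 5), (1, 2, 5), (0, 3, 5), (1, 3, 5), (0, 4, 5), (1, 4, 5)]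

/-- value of a triple of different classes -/
def W0 (m : ℕ) (i j k : Fin 6) : ℕ :=
  if i = j ∨ j = k ∨ i = k then 0 else u3 m (s3 i j k)

theorem WV_zero {m : ℕ} {c : ℕ → ℕ → ℕ} (hc : ∀ i j : Fin 6, i ≠ j → c i j = 0) (i j k : Fin 6) :
    WV m c i j k = W0 m i j k := by
  unfold WV W0
  by_cases h1 : i = j
  · by_cases h2 : j = k
    · simp [h1, h2]
    · have h3 : ¬ i = k := fun e => h2 (by rw [← h1, e])
      rw [if_pos h1, if_neg h2, if_pos (Or.inl h1)]
      exact hc _ _ h3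
  · by_cases h2 : j = k
    · rw [if_neg h1, if_pos h2, if_pos (Or.inr (Or.inl h2))]
      exact hc _ _ (fun e => h1 e.symm)
    · by_cases h3 : i = k
      · rw [if_neg h1, if_neg h2, if_pos h3, if_pos (Or.inr (Or.inr h3))]
        exact hc _ _ h1
      · rw [if_neg h1, if_neg h2, if_neg h3, if_neg]
        rintro (h | h | h)
        exacts [h1 h, h2 h, h3 h]

def ind3 (s : Fin 6 × Fin 6 × Fin 6) (i j k : Fin 6) : ℕ :=
  if i = s.1 then (if j = s.2.1 then (if k = s.2.2 then 1 else 0) else 0) else 0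

def prm (t : Fin 6 × Fin 6 × Fin 6) : List (Fin 6 × Fin 6 × Fin 6) :=
  [(t.1, t.2.1, t.2.2), (t.1, t.2.2, t.2.1), (t.2.1, t.1, t.2.2),
    (t.2.1, t.2.2, t.1), (t.2.2, t.1, t.2.1), (t.2.2, t.2.1, t.1)]

def WL (L : List (Fin 6 × Fin 6 × Fin 6)) (i j k : Fin 6) : ℕ := (L.map fun s => ind3 s i j k).sum

theorem sum_ind3 (x : Fin 6 → ℕ) (s : Fin 6 × Fin 6 × Fin 6) :
    ∑ i, ∑ j, ∑ l, (ind3 s i j l : ℤ) * ((x i : ℤ) * ((x j : ℤ) * (x l : ℤ))) =
      (x s.1 : ℤ) * ((x s.2.1 : ℤ) * (x s.2.2 : ℤ)) := by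
  simp [ind3]

theorem sum_WL (x : Fin 6 → ℕ) (L : List (Fin 6 × Fin 6 × Fin 6)) :
    ∑ i, ∑ j, ∑ l, (WL L i j l : ℤ) * ((x i : ℤ) * ((x j : ℤ) * (x l : ℤ))) =
      (L.map fun s => (x s.1 : ℤ) * ((x s.2.1 : ℤ) * (x s.2.2 : ℤ))).sum := by
  induction L with
  | nil => simp [WL]
  | cons s L ih =>
    have e : ∀ i j l, (WL (s :: L) i j l : ℤ) = (ind3 s i j l : ℤ) + WL L i j l := by
      intro i j l
      simp [WL]
    simp only [e, add_mul, Finset.sum_add_distrib]
    rw [ih, sum_ind3, List.map_cons, List.sum_cons]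

theorem sum_prm (x : Fin 6 → ℕ) (T : List (Fin 6 × Fin 6 × Fin 6)) :
    (((T.map prm).flatten).map fun s => (x s.1 : ℤ) * ((x s.2.1 : ℤ) * (x s.2.2 : ℤ))).sum =
      6 * (blow T x : ℤ) := by
  induction T with
  | nil => simp [blow]
  | cons t T ih =>
    rw [List.map_cons, List.flatten_cons, List.map_append, List.sum_append, ih]
    have e : (blow (t :: T) x : ℤ) = x t.1 * x t.2.1 * x t.2.2 + blow T x := by
      simp [blow]
    rw [e]
    simp [prm]
    ring

theorem W0A : ∀ i j k : Fin 6, W0 120663 i j k = WL ((TA.map prm).flatten) i j k := by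
  decide +kernel

theorem W0B : ∀ i j k : Fin 6, W0 228027 i j k = WL ((TB.map prm).flatten) i j k := by
  decide +kernel

theorem sumA (x : Fin 6 → ℕ) :
    ∑ i, ∑ j, ∑ l, (W0 120663 i j l : ℤ) * ((x i : ℤ) * ((x j : ℤ) * (x l : ℤ))) =
      6 * (blow TA x : ℤ) := by
  simp only [W0A]
  rw [sum_WL, sum_prm]

theorem sumB (x : Fin 6 → ℕ) :
    ∑ i, ∑ j, ∑ l, (W0 228027 i j l : ℤ) * ((x i : ℤ) * ((x j : ℤ) * (x l : ℤ))) =
      6 * (blow TB x : ℤ) := by
  simp only [W0B]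
  rw [sum_WL, sum_prm]

section
variable {V : Type} {E : V → V → V → ℕ} {m t : ℕ} {c : ℕ → ℕ → ℕ} {y : Fin 6 → Fin t → V}

/-- all pairs of classes are empty -/
theorem real_zero (hE : Sy E) (h : Hom E m c t y) (hc : ∀ i j : Fin 6, i ≠ j → c i j = 0)
    {T : List (Fin 6 × Fin 6 × Fin 6)} (hT : ∀ x : Fin 6 → ℕ,
      ∑ i, ∑ j, ∑ l, (W0 m i j l : ℤ) * ((x i : ℤ) * ((x j : ℤ) * (x l : ℤ))) = 6 * (blow T x : ℤ))
    {k q : ℕ} (hkt : k ≤ t) (x : Fin 6 → ℕ) (hk : ∑ i, x i = k) (hq : blow T x = q) :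
    ∃ e : Fin k → Fin 6 × Fin t, Function.Injective e ∧
      spl E (List.ofFn fun i => y (e i).1 (e i).2) = q := by
  obtain ⟨e, he, h2⟩ := realise hE h x (fun i => by
    have : x i ≤ ∑ i, x i := single_le_sum (f := x) (fun _ _ => Nat.zero_le _) (mem_univ i)
    omega) hk
  refine ⟨e, he, ?_⟩
  simp only [WV_zero hc] at h2
  rw [hT, hq] at h2
  have e0 : ∀ i j : Fin 6, W0 m i i j = 0 := by
    intro i j
    unfold W0
    simp
  simp only [e0] at h2
  simp at h2
  exact_mod_cast h2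

/-- a pair of classes with edges -/
theorem real_one (hE : Sy E) (hK : NoK4 E) (h : Hom E m c t y) (ht2 : 2 ≤ t) {i0 j0 : Fin 6}
    (hij : i0 ≠ j0) (hc1 : c i0 j0 = 1) (hcb : c j0 i0 = 0 ∨ c j0 i0 = 1)
    {k q a b : ℕ} (hkt : k ≤ t) (hk : a + b = k) (hq : a.choose 2 * b = q) :
    ∃ e : Fin k → Fin 6 × Fin t, Function.Injective e ∧
      spl E (List.ofFn fun i => y (e i).1 (e i).2) = q := by
  have hc0 : c j0 i0 = 0 := by
    rcases hcb with h0 | h1
    · exact h0
    · exfalso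
      let z0 : Fin t := ⟨0, by omega⟩
      let z1 : Fin t := ⟨1, by omega⟩
      have hz : z0 ≠ z1 := by
        intro e
        have := Fin.mk.inj_iff.mp e
        omega
      have e1 : E (y i0 z0) (y i0 z1) (y j0 z0) = 1 := by rw [h.par i0 j0 hij z0 z1 hz z0, hc1]
      have e2 : E (y i0 z0) (y i0 z1) (y j0 z1) = 1 := by rw [h.par i0 j0 hij z0 z1 hz z1, hc1]
      have e3 : E (y i0 z0) (y j0 z0) (y j0 z1) = 1 := by
        rw [← hE.h231, h.par j0 i0 hij.symm z0 z1 hz z0, h1]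
      have e4 : E (y i0 z1) (y j0 z0) (y j0 z1) = 1 := by
        rw [← hE.h231, h.par j0 i0 hij.symm z0 z1 hz z1, h1]
      have h5 := hK (y i0 z0) (y i0 z1) (y j0 z0) (y j0 z1)
      rw [e1, e2, e3, e4] at h5
      exact absurd h5 (by decide)
  let x : Fin 6 → ℕ := fun i => if i = i0 then a else if i = j0 then b else 0
  have hx0 : x i0 = a := by simp [x]
  have hx1 : x j0 = b := by simp [x, hij.symm]
  have hxs : ∑ i, x i = k := by
    rw [← hk]
    have e : ∀ i, x i = (if i = i0 then a else 0) + (if i = j0 then b else 0) := by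
      intro i
      by_cases h1 : i = i0
      · subst h1; simp [x, hij]
      · simp [x, h1]
    simp only [e, Finset.sum_add_distrib, Finset.sum_ite_eq', Finset.mem_univ, if_true]
  obtain ⟨e, he, h2⟩ := realise hE h x (fun i => by
    have : x i ≤ ∑ i, x i := single_le_sum (f := x) (fun _ _ => Nat.zero_le _) (mem_univ i)
    omega) hxs
  refine ⟨e, he, ?_⟩
  have ex : ∀ i, (x i : ℤ) = (if i = i0 then (a : ℤ) else 0) + (if i = j0 then (b : ℤ) else 0) := by
    intro i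
    by_cases h1 : i = i0
    · subst h1; simp [x, hij]
    · by_cases h2 : i = j0
      · subst h2; simp [x, h1]
      · simp [x, h1, h2]
  simp only [ex, mul_add, add_mul, Finset.sum_add_distrib, mul_ite, ite_mul,
      mul_zero, zero_mul, Finset.sum_ite_eq',
      Finset.mem_univ, if_true] at h2
  have w1 : WV m c i0 i0 i0 = 0 := by simp [WV]
  have w2 : WV m c j0 j0 j0 = 0 := by simp [WV]
  have w3 : WV m c i0 i0 j0 = 1 := by simp [WV, hij, hc1]
  have w4 : WV m c i0 j0 i0 = 1 := by rw [WV_132, w3]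
  have w5 : WV m c j0 i0 i0 = 1 := by rw [WV_213, w4]
  have w6 : WV m c j0 j0 i0 = 0 := by simp [WV, hij.symm, hc0]
  have w7 : WV m c j0 i0 j0 = 0 := by rw [WV_132, w6]
  have w8 : WV m c i0 j0 j0 = 0 := by rw [WV_213, w7]
  rw [w1, w2, w3, w4, w5, w6, w7, w8] at h2
  have h3 : (a : ℤ) * ((a : ℤ) - 1) = 2 * (a.choose 2 : ℤ) := by
    rcases a with _ | a
    · simp
    · have e5 : (a + 1) * a / 2 = (a + 1).choose 2 := by
        rw [Nat.choose_two_right]
        simp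
      have e6 : 2 ∣ (a + 1) * a := by
        rw [mul_comm]; exact (Nat.even_mul_succ_self a).two_dvd
      have e7 : 2 * (a + 1).choose 2 = (a + 1) * a := by
        rw [← e5]; exact Nat.mul_div_cancel' e6
      have e8 : ((2 * (a + 1).choose 2 : ℕ) : ℤ) = (((a + 1) * a : ℕ) : ℤ) := by rw [e7]
      push_cast at e8 ⊢
      linarith
  have h4 : (6 : ℤ) * (spl E (List.ofFn fun i => y (e i).1 (e i).2) : ℤ) = 6 * (q : ℤ) := by
    rw [h2, ← hq]
    push_cast
    linear_combination (3 * (b : ℤ)) * h3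
  have h5 : (spl E (List.ofFn fun i => y (e i).1 (e i).2) : ℤ) = (q : ℤ) := by linarith
  exact_mod_cast h5

end

/-- a pair which is realised in the two-class construction and in both patterns -/
theorem ramCrit {k q a b : ℕ} (hk : a + b = k) (hq : a.choose 2 * b = q) (xA xB : Fin 6 → ℕ)
    (hA : ∑ i, xA i = k) (hqA : blow TA xA = q) (hB : ∑ i, xB i = k) (hqB : blow TB xB = q) :
    ∀ w ∈ Pool.Agent.TH773.ST.famM 2, RamP k q w := by
  intro w hw
  refine ramP fun V E c y hE hK hH hc01 => ?_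
  have ht8 : 8 ≤ max k 8 := le_max_right _ _
  have htk : k ≤ max k 8 := le_max_left _ _
  by_cases h0 : ∀ i j : Fin 6, i ≠ j → c i j = 0
  · have hw' : w = 120663 ∨ w = 228027 := by
      simpa [Pool.Agent.TH773.ST.famM] using hw
    rcases hw' with rfl | rfl
    · exact real_zero hE hH h0 sumA htk xA hA hqA
    · exact real_zero hE hH h0 sumB htk xB hB hqB
  · push Not at h0
    obtain ⟨i, j, hij, hne⟩ := h0
    have h1 : c i j = 1 := (hc01 i j).resolve_left hne
    exact real_one hE hK hH (by omega) hij h1 (hc01 j i) htk hk hq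

end Pool.Agent.Q54.Tur
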