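import Pool.Agent.Q54.Tur.Crit
import Pool.Agent.Y47.BU.OTur
import Pool.Agent.TH773.ST.Ful

/-! Many sets of `k` vertices with `q` edges in all nearly extremal 3-graphs. -/

set_option autoImplicit false
set_option maxRecDepth 100000
set_option maxHeartbeats 4000000
open Finset
open scoped Classical

namespace Pool.Agent.Q54.Tur
open Pool.Agent.H122R2.N6 Pool.Agent.H37R3.Cop
open Pool.Agent.TH773 Pool.Agent.TH773.ST
open Pool.Agent.Y47.BU

/-- the number of sets of `k` vertices with exactly `q` edges changes by few -/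
theorem spans_pert {n k q : ℕ} {H T : Finset (Finset (Fin n))} (hH : ∀ e ∈ H, e.card = 3)
    (hT : ∀ e ∈ T, e.card = 3) :
    Turan34.spans T k q ≤ Turan34.spans H k q + (symmDiff H T).card * n ^ (k - 3) := by
  unfold Turan34.spans
  have h1 : ((univ : Finset (Fin n)).powersetCard k).filter
      (fun S => (T.filter fun e => e ⊆ S).card = q) ⊆
      ((univ : Finset (Fin n)).powersetCard k).filter
        (fun S => (H.filter fun e => e ⊆ S).card = q) ∪
      (symmDiff H T).biUnion fun e => ((univ : Finset (Fin n)).powersetCard k).filter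
        fun S => e ⊆ S := by
    intro S hS
    obtain ⟨hS1, hS2⟩ := mem_filter.mp hS
    by_cases h : ∃ e ∈ symmDiff H T, e ⊆ S
    · obtain ⟨e, he, heS⟩ := h
      exact mem_union_right _ (mem_biUnion.mpr ⟨e, he, mem_filter.mpr ⟨hS1, heS⟩⟩)
    · push Not at h
      refine mem_union_left _ (mem_filter.mpr ⟨hS1, ?_⟩)
      rw [← hS2]
      congr 1
      ext e
      simp only [mem_filter]
      constructor
      · rintro ⟨h1, h2⟩
        refine ⟨?_, h2⟩
        by_contra h3
        exact h e (mem_symmDiff.mpr (Or.inl ⟨h1, h3⟩)) h2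
      · rintro ⟨h1, h2⟩
        refine ⟨?_, h2⟩
        by_contra h3
        exact h e (mem_symmDiff.mpr (Or.inr ⟨h1, h3⟩)) h2
  refine (card_le_card h1).trans ((card_union_le _ _).trans (Nat.add_le_add_left ?_ _))
  refine card_biUnion_le.trans ((sum_le_card_nsmul _ _ (n ^ (k - 3)) ?_).trans (le_of_eq ?_))
  · intro e he
    have he3 : e.card = 3 := by
      rcases mem_symmDiff.mp he with h | h
      · exact hH e h.1
      · exact hT e h.1
    have h2 : (((univ : Finset (Fin n)).powersetCard k).filter fun S => e ⊆ S).card ≤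
        ((univ : Finset (Fin n)).powersetCard (k - 3)).card := by
      refine card_le_card_of_injOn (fun S => S \ e) ?_ ?_
      · intro S hS
        obtain ⟨hS1, hS2⟩ := mem_filter.mp (mem_coe.mp hS)
        refine mem_coe.mpr (mem_powersetCard.mpr ⟨subset_univ _, ?_⟩)
        simp only
        rw [card_sdiff_of_subset hS2, (mem_powersetCard.mp hS1).2, he3]
      · intro S hS S' hS' h
        have hS2 := (mem_filter.mp (mem_coe.mp hS)).2
        have hS2' := (mem_filter.mp (mem_coe.mp hS')).2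
        simp only at h
        rw [← sdiff_union_of_subset hS2, ← sdiff_union_of_subset hS2', h]
    refine h2.trans ?_
    rw [card_powersetCard, card_univ, Fintype.card_fin]
    exact Nat.choose_le_pow _ _
  · rw [smul_eq_mul]

/-- sets with `a` vertices in a class and `b` in the following one -/
theorem spans_turan {n k q a b : ℕ} (hk : a + b = k) (hq : a.choose 2 * b = q)
    (g : Fin n → Fin 3) :
    (Pt g 0).card.choose a * (Pt g 1).card.choose b ≤ Turan34.spans (Turan34.turan g) k q := by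
  unfold Turan34.spans
  rw [← card_powersetCard, ← card_powersetCard, ← card_product]
  have hdisj : Disjoint (Pt g 0) (Pt g 1) := by
    rw [Finset.disjoint_left]
    intro v h0 h1
    have e0 := (mem_filter.mp h0).2
    have e1 := (mem_filter.mp h1).2
    rw [e0] at e1
    exact absurd e1 (by decide)
  refine card_le_card_of_injOn (fun p => p.1 ∪ p.2) ?_ ?_
  · intro p hp
    obtain ⟨h1, h2⟩ := mem_product.mp (mem_coe.mp hp)
    obtain ⟨h1s, h1c⟩ := mem_powersetCard.mp h1
    obtain ⟨h2s, h2c⟩ := mem_powersetCard.mp h2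
    have hd : Disjoint p.1 p.2 := disjoint_of_subset_left h1s (disjoint_of_subset_right h2s hdisj)
    refine mem_coe.mpr (mem_filter.mpr ⟨mem_powersetCard.mpr ⟨subset_univ _, ?_⟩, ?_⟩)
    · simp only
      rw [card_union_of_disjoint hd, h1c, h2c, hk]
    · simp only
      set S := p.1 ∪ p.2 with hS
      have h3 := span0 (H := Turan34.turan g) (fun e he => turan_card he) (L := S.toList)
        S.nodup_toList
      rw [S.toList_toFinset] at h3
      rw [h3, spl_T S.nodup_toList]
      have h4 := spT_eq (S.toList.map g)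
      have hc : ∀ c : Fin 3, (S.toList.map g).count c = (S.filter fun v => g v = c).card := by
        intro c
        rw [List.count_eq_countP, List.countP_map, List.countP_eq_length_filter]
        rw [← List.toFinset_card_of_nodup (S.nodup_toList.filter _)]
        congr 1
        ext v
        simp
      have c0 : (S.filter fun v => g v = 0) = p.1 := by
        ext v
        simp only [hS, mem_filter, mem_union]
        constructor
        · rintro ⟨h | h, e⟩
          · exact h
          · have := (mem_filter.mp (h2s h)).2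
            rw [e] at this
            exact absurd this (by decide)
        · intro h
          exact ⟨Or.inl h, (mem_filter.mp (h1s h)).2⟩
      have c1 : (S.filter fun v => g v = 1) = p.2 := by
        ext v
        simp only [hS, mem_filter, mem_union]
        constructor
        · rintro ⟨h | h, e⟩
          · have := (mem_filter.mp (h1s h)).2
            rw [e] at this
            exact absurd this (by decide)
          · exact h
        · intro h
          exact ⟨Or.inr h, (mem_filter.mp (h2s h)).2⟩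
      have c2 : (S.filter fun v => g v = 2) = ∅ := by
        rw [filter_eq_empty_iff]
        intro v hv e
        rcases mem_union.mp hv with h | h
        · have := (mem_filter.mp (h1s h)).2
          rw [e] at this
          exact absurd this (by decide)
        · have := (mem_filter.mp (h2s h)).2
          rw [e] at this
          exact absurd this (by decide)
      rw [hc, hc, hc, c0, c1, c2, card_empty, h1c, h2c] at h4
      unfold Pool.Agent.Y47.BU.F2 at h4
      have h5 : (a : ℤ) * ((a : ℤ) - 1) = 2 * (a.choose 2 : ℤ) := by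
        rcases a with _ | a
        · simp
        · have e5 : (a + 1) * a / 2 = (a + 1).choose 2 := by
            rw [Nat.choose_two_right]
            simp
          have e6 : 2 ∣ (a + 1) * a := by
            rw [mul_comm]; exact (Nat.even_mul_succ_self a).two_dvd
          have e7 : 2 * (a + 1).choose 2 = (a + 1) * a := by
            rw [← e5]; exact Nat.mul_div_cancel' e6
          have e8 : ((2 * (a + 1).choose 2 : ℕ) : ℤ) = (((a + 1) * a : ℕ) : ℤ) := by rw [e7]
          push_cast at e8 ⊢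
          linarith
      have h6 : (2 : ℤ) * (spT (S.toList.map g) : ℤ) = 2 * (q : ℤ) := by
        rw [h4, ← hq]
        push_cast
        linear_combination (b : ℤ) * h5
      have h7 : (spT (S.toList.map g) : ℤ) = (q : ℤ) := by linarith
      exact_mod_cast h7
  · intro p hp p' hp' h
    obtain ⟨h1, h2⟩ := mem_product.mp (mem_coe.mp hp)
    obtain ⟨h1', h2'⟩ := mem_product.mp (mem_coe.mp hp')
    have s1 := (mem_powersetCard.mp h1).1
    have s2 := (mem_powersetCard.mp h2).1
    have s1' := (mem_powersetCard.mp h1').1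
    have s2' := (mem_powersetCard.mp h2').1
    simp only at h
    have key : ∀ (X Y : Finset (Fin n)), X ⊆ Pt g 0 → Y ⊆ Pt g 1 →
        (X ∪ Y) ∩ Pt g 0 = X ∧ (X ∪ Y) ∩ Pt g 1 = Y := by
      intro X Y hX hY
      constructor
      · rw [union_inter_distrib_right, inter_eq_left.mpr hX]
        rw [disjoint_iff_inter_eq_empty.mp (disjoint_of_subset_left hY hdisj.symm), union_empty]
      · rw [union_inter_distrib_right, inter_eq_left.mpr hY]
        rw [disjoint_iff_inter_eq_empty.mp (disjoint_of_subset_left hX hdisj), empty_union]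
    obtain ⟨k1, k2⟩ := key p.1 p.2 s1 s2
    obtain ⟨k1', k2'⟩ := key p'.1 p'.2 s1' s2'
    exact Prod.ext (by rw [← k1, h, k1']) (by rw [← k2, h, k2'])

theorem choose_low {n A a : ℕ} (hA : 3 * n ≤ 10 * A) (hn : 20 * a ≤ n) :
    ((n : ℝ) / 4) ^ a / (a.factorial : ℝ) ≤ (A.choose a : ℝ) := by
  have h0 : (0 : ℝ) < (a.factorial : ℝ) := by exact_mod_cast Nat.factorial_pos a
  rw [div_le_iff₀ h0]
  have h1 := Nat.pow_sub_le_descFactorial A a
  rw [Nat.descFactorial_eq_factorial_mul_choose] at h1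
  have h2 : (((A + 1 - a) ^ a : ℕ) : ℝ) ≤ ((a.factorial * A.choose a : ℕ) : ℝ) := by
    exact_mod_cast h1
  push_cast at h2
  have h3 : (n : ℝ) / 4 ≤ ((A + 1 - a : ℕ) : ℝ) := by
    have h4 : n ≤ 4 * (A + 1 - a) := by omega
    have h5 : (n : ℝ) ≤ ((4 * (A + 1 - a) : ℕ) : ℝ) := by exact_mod_cast h4
    rw [Nat.cast_mul] at h5
    push_cast at h5 ⊢
    linarith
  have h4 : ((n : ℝ) / 4) ^ a ≤ (((A + 1 - a : ℕ) : ℝ)) ^ a :=
    pow_le_pow_left₀ (by positivity) h3 a
  linarith [mul_comm (A.choose a : ℝ) (a.factorial : ℝ)]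

theorem choose3_real {n : ℕ} : (n : ℝ) ^ 3 / 6 - (n : ℝ) ^ 2 / 2 ≤ (n.choose 3 : ℝ) := by
  have h : 6 * n.choose 3 = n * (n - 1) * (n - 2) := by
    have := Nat.descFactorial_eq_factorial_mul_choose n 3
    simp [Nat.descFactorial, Nat.factorial] at this
    rw [← this]
    ring
  rcases n with _ | _ | n
  · norm_num
  · have e : Nat.choose (0 + 1) 3 = 0 := by decide
    rw [e]
    norm_num
  · have h2 : (6 : ℝ) * ((n + 2).choose 3 : ℝ) = (n + 2) * (n + 1) * n := by
      have h3 : ((6 * (n + 2).choose 3 : ℕ) : ℝ) = (((n + 2) * (n + 1) * n : ℕ) : ℝ) := by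
        have : n + 2 - 1 = n + 1 := by omega
        have h4 : n + 2 - 2 = n := by omega
        rw [h, this, h4]
      push_cast at h3 ⊢
      linarith
    push_cast
    nlinarith [h2]

open Pool.Agent.TH773.CL (nat_of_real)

/-- many sets of `k` vertices with `q` edges -/
theorem many {k q a b : ℕ} (hk3 : 3 ≤ k) (hk : a + b = k) (hq : a.choose 2 * b = q)
    (hR : ∀ w ∈ famM 2, RamP k q w) :
    ∃ c : ℝ, 0 < c ∧ ∃ n0 : ℕ, ∀ n, n0 ≤ n → ∀ H : Finset (Finset (Fin n)),
      (∀ e ∈ H, e.card = 3) → Turan34.K43Free H →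
      (5 / 9 - c) * (n.choose 3 : ℝ) ≤ (H.card : ℝ) →
      c * (n : ℝ) ^ k ≤ (Turan34.spans H k q : ℝ) := by
  obtain ⟨c1, hc1⟩ : ∃ c1 : ℝ, c1 = 1 / ((4 : ℝ) ^ k * ((a.factorial : ℝ) * (b.factorial : ℝ))) :=
    ⟨_, rfl⟩
  have ha0 : (0 : ℝ) < (a.factorial : ℝ) := by exact_mod_cast Nat.factorial_pos a
  have hb0 : (0 : ℝ) < (b.factorial : ℝ) := by exact_mod_cast Nat.factorial_pos b
  have hc10 : 0 < c1 := by rw [hc1]; positivity
  obtain ⟨ε, hε⟩ : ∃ ε : ℝ, ε = min (c1 / 8) (1 / 10 ^ 10) := ⟨_, rfl⟩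
  have hε0 : 0 < ε := by rw [hε]; positivity
  have hε1 : ε ≤ c1 / 8 := by rw [hε]; exact min_le_left _ _
  have hε2 : ε ≤ 1 / 10 ^ 10 := by rw [hε]; exact min_le_right _ _
  obtain ⟨K, n1, hmain⟩ := mainO 2 hR hε0
  have hkk : 0 < k ^ k := Nat.pow_pos (by omega)
  have hkk' : (0 : ℝ) < ((k ^ k : ℕ) : ℝ) := by exact_mod_cast hkk
  obtain ⟨δ, hδ⟩ : ∃ δ : ℝ, δ = 1 / (((k ^ k : ℕ) : ℝ) * ((K : ℝ) + 1)) := ⟨_, rfl⟩
  have hδ0 : 0 < δ := by rw [hδ]; positivity
  obtain ⟨c, hc⟩ : ∃ c : ℝ, c = min (min δ (c1 / 4)) (ε / 10 ^ 10) := ⟨_, rfl⟩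
  have hc0 : 0 < c := by
    rw [hc]
    have : 0 < ε / 10 ^ 10 := by positivity
    have : 0 < c1 / 4 := by positivity
    simp only [lt_min_iff]
    exact ⟨⟨hδ0, by positivity⟩, by positivity⟩
  have hcδ : c ≤ δ := by rw [hc]; exact (min_le_left _ _).trans (min_le_left _ _)
  have hcc1 : c ≤ c1 / 4 := by rw [hc]; exact (min_le_left _ _).trans (min_le_right _ _)
  have hcε : c ≤ ε / 10 ^ 10 := by rw [hc]; exact min_le_right _ _
  obtain ⟨n2, hn2⟩ := exists_nat_ge ((10 : ℝ) ^ 10 / ε)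
  refine ⟨c, hc0, max n1 (max n2 (20 * k + 1)), fun n hn H h3 hK hcard => ?_⟩
  have a1 : n1 ≤ n := (le_max_left _ _).trans hn
  have a2 : n2 ≤ n := (le_max_left _ _).trans ((le_max_right _ _).trans hn)
  have a3 : 20 * k + 1 ≤ n := (le_max_right _ _).trans ((le_max_right _ _).trans hn)
  have hn0 : (0 : ℝ) < n := by
    have : 0 < n := by omega
    exact_mod_cast this
  by_contra hlt
  push Not at hlt
  have hP : (Turan34.spans H k q : ℝ) ≤ δ * (n : ℝ) ^ k :=
    hlt.le.trans (mul_le_mul_of_nonneg_right hcδ (by positivity))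
  obtain ⟨-, g, hg⟩ := hmain n a1 H h3 hK (nat_of_real hδ hkk hP (gS_le h3 q))
  have hnε : (10 : ℝ) ^ 10 ≤ ε * n := by
    rw [div_le_iff₀ hε0] at hn2
    have : (n2 : ℝ) ≤ n := by exact_mod_cast a2
    nlinarith
  -- the number of edges
  have b1 := choose3_real (n := n)
  have hc59 : 0 ≤ 5 / 9 - c := by
    have : c ≤ 1 / 10 ^ 20 := by
      calc c ≤ ε / 10 ^ 10 := hcε
        _ ≤ (1 / 10 ^ 10) / 10 ^ 10 := by gcongr
        _ = 1 / 10 ^ 20 := by norm_num
    linarith [show (1 : ℝ) / 10 ^ 20 ≤ 1 / 9 by norm_num]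
  have b2 : (5 / 9 - c) * ((n : ℝ) ^ 3 / 6 - (n : ℝ) ^ 2 / 2) ≤ (H.card : ℝ) :=
    (mul_le_mul_of_nonneg_left b1 hc59).trans hcard
  have n3 : (n : ℝ) ^ 3 = n * (n : ℝ) ^ 2 := by ring
  have b3 : 10 ^ 10 * (n : ℝ) ^ 2 ≤ ε * (n : ℝ) ^ 3 := by
    rw [n3]
    nlinarith [sq_nonneg (n : ℝ)]
  have hn2p : (0 : ℝ) ≤ (n : ℝ) ^ 2 := by positivity
  have hn3p : (0 : ℝ) ≤ (n : ℝ) ^ 3 := by positivity
  have b4 : 5 / 54 * (n : ℝ) ^ 3 - (H.card : ℝ) ≤ 2 * (ε / 10 ^ 10) * (n : ℝ) ^ 3 := by
    have e1 : c * (n : ℝ) ^ 3 ≤ ε / 10 ^ 10 * (n : ℝ) ^ 3 := mul_le_mul_of_nonneg_right hcε hn3p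
    have e2 : (n : ℝ) ^ 2 ≤ ε / 10 ^ 10 * (n : ℝ) ^ 3 := by
      have : ε / 10 ^ 10 * (n : ℝ) ^ 3 = (ε * (n : ℝ) ^ 3) / 10 ^ 10 := by ring
      rw [this, le_div_iff₀ (by positivity)]
      linarith
    have e3 : 0 ≤ c * (n : ℝ) ^ 2 := by positivity
    linarith
  have b5 : ((symmDiff H (Turan34.turan g)).card : ℝ) ≤ 2 * ε * (n : ℝ) ^ 3 := by
    have e1 : (1161216000 : ℝ) * (5 / 54 * (n : ℝ) ^ 3 - (H.card : ℝ)) ≤
        1161216000 * (2 * (ε / 10 ^ 10) * (n : ℝ) ^ 3) := mul_le_mul_of_nonneg_left b4 (by norm_num)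
    have e2 : (1161216000 : ℝ) * (2 * (ε / 10 ^ 10) * (n : ℝ) ^ 3) ≤ ε * (n : ℝ) ^ 3 := by
      have : 0 ≤ ε * (n : ℝ) ^ 3 := by positivity
      linarith
    linarith
  -- the classes are nearly balanced
  have d1 : (H.card : ℝ) ≤ ((Turan34.turan g).card : ℝ) +
      ((symmDiff H (Turan34.turan g)).card : ℝ) := by
    have : H.card ≤ (Turan34.turan g).card + (symmDiff H (Turan34.turan g)).card := by
      refine (card_le_card (t := Turan34.turan g ∪ symmDiff H (Turan34.turan g)) ?_).trans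
        (card_union_le _ _)
      intro e he
      by_cases h : e ∈ Turan34.turan g
      · exact mem_union_left _ h
      · exact mem_union_right _ (mem_symmDiff.mpr (Or.inl ⟨he, h⟩))
    exact_mod_cast this
  have d2 := turan_card6 g
  have d3 := F6_P3 (Pt g 0).card (Pt g 1).card (Pt g 2).card
  have d4 : (6 : ℝ) * ((Turan34.turan g).card : ℝ) ≤
      (P3 (Pt g 0).card (Pt g 1).card (Pt g 2).card : ℝ) := by
    have : 6 * (Turan34.turan g).card ≤ P3 (Pt g 0).card (Pt g 1).card (Pt g 2).card := by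
      rw [d2, ← d3]
      exact Nat.le_add_right _ _
    exact_mod_cast this
  have d5 : 10 ^ 7 * (5 * n ^ 3) ≤
      10 ^ 7 * (9 * P3 (Pt g 0).card (Pt g 1).card (Pt g 2).card) + n ^ 3 := by
    have h1 : (10 : ℝ) ^ 7 * (5 * (n : ℝ) ^ 3) ≤ 10 ^ 7 * (9 *
        (P3 (Pt g 0).card (Pt g 1).card (Pt g 2).card : ℝ)) + (n : ℝ) ^ 3 := by
      have h2 : 3 * ε * (n : ℝ) ^ 3 ≤ 3 * (1 / 10 ^ 10) * (n : ℝ) ^ 3 := by gcongr
      have h3 : 2 * (ε / 10 ^ 10) * (n : ℝ) ^ 3 ≤ ε * (n : ℝ) ^ 3 := by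
        have : 0 ≤ ε * (n : ℝ) ^ 3 := by positivity
        linarith
      have h4 : 5 / 54 * (n : ℝ) ^ 3 ≤ ((Turan34.turan g).card : ℝ) + 3 * ε * (n : ℝ) ^ 3 := by
        linarith
      linarith
    exact_mod_cast h1
  obtain ⟨s0, -, s1, -, -, -⟩ := part_sizes (n := n)
    (by rw [Pt_add g, Fintype.card_fin]) (by omega) d5
  -- the number of sets
  have f1 := spans_turan hk hq g
  have f2 := spans_pert (k := k) (q := q) h3 (fun e he => turan_card (g := g) he)
  have g1 := choose_low (a := a) s0 (by omega)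
  have g2 := choose_low (a := b) s1 (by omega)
  have g3 : c1 * (n : ℝ) ^ k ≤ (Turan34.spans (Turan34.turan g) k q : ℝ) := by
    have h1 : (((Pt g 0).card.choose a * (Pt g 1).card.choose b : ℕ) : ℝ) ≤
        (Turan34.spans (Turan34.turan g) k q : ℝ) := by exact_mod_cast f1
    refine le_trans ?_ h1
    push_cast
    refine le_trans (le_of_eq ?_) (mul_le_mul g1 g2 (by positivity) (by positivity))
    rw [hc1, ← hk, pow_add, pow_add, div_pow, div_pow]
    field_simp
  have g4 : (Turan34.spans (Turan34.turan g) k q : ℝ) ≤ (Turan34.spans H k q : ℝ) +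
      ((symmDiff H (Turan34.turan g)).card : ℝ) * (n : ℝ) ^ (k - 3) := by exact_mod_cast f2
  have g5 : ((symmDiff H (Turan34.turan g)).card : ℝ) * (n : ℝ) ^ (k - 3) ≤
      2 * ε * (n : ℝ) ^ k := by
    have h1 := mul_le_mul_of_nonneg_right b5 (show (0 : ℝ) ≤ (n : ℝ) ^ (k - 3) by positivity)
    refine h1.trans (le_of_eq ?_)
    rw [mul_assoc, ← pow_add]
    congr 2
    omega
  have hnk : (0 : ℝ) < (n : ℝ) ^ k := by positivity
  have g6 : ε * (n : ℝ) ^ k ≤ c1 / 8 * (n : ℝ) ^ k := mul_le_mul_of_nonneg_right hε1 hnk.le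
  have g7 : c * (n : ℝ) ^ k ≤ c1 / 4 * (n : ℝ) ^ k := mul_le_mul_of_nonneg_right hcc1 hnk.le
  have g8 : 0 < c1 * (n : ℝ) ^ k := by positivity
  linarith

end Pool.Agent.Q54.Tur
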